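import Mathlib

set_option autoImplicit false

namespace Pool.Agent.Results.MP_2e7b1e_an.TipPreimage

open Complex Set Filter Topology

/-- The open unit disc. -/
def disc : Set ℂ := Metric.ball 0 1

/-- The class `S` of normalised univalent functions on the unit disc. -/
def ClassS (f : ℂ → ℂ) : Prop :=
  DifferentiableOn ℂ f disc ∧ InjOn f disc ∧ f 0 = 0 ∧ deriv f 0 = 1

/-- `Γ` is a piecewise analytic Jordan arc (on the Riemann sphere) from the finite point `ω₀` to
infinity: it has an injective continuous parametrisation `γ` on `[0, ∞)` with `γ 0 = ω₀` and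
`γ t → ∞`, which, away from a finite set of parameters, is real analytic with nonvanishing
derivative, which is one-sidedly analytic with nonvanishing derivative at every parameter, and for
which `1 / γ (1 / s)` is analytic with nonvanishing derivative at `s = 0`. -/
def IsSlit (ω₀ : ℂ) (Γ : Set ℂ) : Prop :=
  ∃ (γ : ℝ → ℂ) (B : Finset ℝ),
    ContinuousOn γ (Ici 0) ∧ InjOn γ (Ici 0) ∧ γ 0 = ω₀ ∧ γ '' Ici 0 = Γ ∧
    Tendsto γ atTop (Bornology.cobounded ℂ) ∧
    (∀ t : ℝ, 0 < t → t ∉ B → AnalyticAt ℝ γ t ∧ deriv γ t ≠ 0) ∧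
    (∀ t : ℝ, 0 ≤ t → ∃ g : ℝ → ℂ, AnalyticAt ℝ g t ∧ deriv g t ≠ 0 ∧ γ =ᶠ[𝓝[≥] t] g) ∧
    (∀ t : ℝ, 0 < t → ∃ g : ℝ → ℂ, AnalyticAt ℝ g t ∧ deriv g t ≠ 0 ∧ γ =ᶠ[𝓝[≤] t] g) ∧
    (∃ g : ℝ → ℂ, AnalyticAt ℝ g 0 ∧ deriv g 0 ≠ 0 ∧ g 0 = 0 ∧
      (fun s : ℝ => (γ (1 / s))⁻¹) =ᶠ[𝓝[>] 0] g)

/-- `Γ \ {ω₀}` lies in an infinite sector with vertex `ω₀` and opening angle `α π`. -/
def InSector (α : ℝ) (ω₀ : ℂ) (Γ : Set ℂ) : Prop :=
  ∃ θ₀ : ℝ, ∀ ω ∈ Γ, ω ≠ ω₀ → ∃ θ ∈ Icc θ₀ (θ₀ + α * Real.pi),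
    ω - ω₀ = (‖ω - ω₀‖ : ℂ) * Complex.exp (θ * I)

/-- `f ∈ Σ_α`, with tip `ω₀`. -/
def InSigma (α : ℝ) (f : ℂ → ℂ) (ω₀ : ℂ) : Prop :=
  ClassS f ∧ IsSlit ω₀ (f '' disc)ᶜ ∧ InSector α ω₀ (f '' disc)ᶜ

/-- The set of all `|φ_f|` with `f ∈ Σ_α` and `f(-1) = ∞`; boundary values are limits from inside
the disc. -/
def tipAngles (α : ℝ) : Set ℝ :=
  {x | ∃ (f : ℂ → ℂ) (ω₀ : ℂ) (φ : ℝ), InSigma α f ω₀ ∧
    Tendsto f (𝓝[disc] (-1)) (Bornology.cobounded ℂ) ∧
    φ ∈ Ioo (-Real.pi) Real.pi ∧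
    Tendsto f (𝓝[disc] (Complex.exp (φ * I))) (𝓝 ω₀) ∧ x = |φ|}

/-- The explicit slit map. -/
noncomputable def F (q z : ℂ) : ℂ :=
  q / (2 * (1 + q)) - ((1 + q) / (2 * q)) * (1 / (1 + z) - 1 / (1 + q)) ^ 2

lemma one_add_ne {z : ℂ} (hz : z ∈ disc) : 1 + z ≠ 0 := by
  intro h
  have h1 : z = -1 := by linear_combination h
  have h2 : ‖z‖ < 1 := by simpa [disc] using hz
  rw [h1] at h2
  simp at h2

/-- `z` is in the disc iff `Re (1/(1+z)) > 1/2`. -/
lemma re_gt_iff {z : ℂ} (h : 1 + z ≠ 0) : z ∈ disc ↔ 1 / 2 < (1 / (1 + z)).re := by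
  have h1 : 0 < normSq (1 + z) := normSq_pos.mpr h
  have h2 : (1 / (1 + z)).re = (1 + z.re) / normSq (1 + z) := by
    rw [one_div, inv_re]
    simp
  rw [h2, div_lt_div_iff₀ (by norm_num) h1]
  have h3 : z ∈ disc ↔ ‖z‖ < 1 := by simp [disc]
  rw [h3]
  have h4 : ‖z‖ < 1 ↔ normSq z < 1 := by
    rw [← Complex.sq_norm]
    constructor
    · intro h; nlinarith [norm_nonneg z]
    · intro h
      by_contra hc
      push Not at hc
      nlinarith
  rw [h4, normSq_apply, normSq_apply]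
  simp only [add_re, one_re, add_im, one_im, zero_add]
  constructor <;> intro h <;> nlinarith

lemma re_half {q : ℂ} (hq : ‖q‖ = 1) (hq1 : 1 + q ≠ 0) : (1 / (1 + q)).re = 1 / 2 := by
  have h1 : 0 < normSq (1 + q) := normSq_pos.mpr hq1
  have h2 : (1 / (1 + q)).re = (1 + q.re) / normSq (1 + q) := by
    rw [one_div, inv_re]
    simp
  rw [h2, div_eq_div_iff h1.ne' (by norm_num)]
  have h3 : normSq q = 1 := by rw [← Complex.sq_norm, hq]; norm_num
  rw [normSq_apply] at h3 ⊢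
  simp only [add_re, one_re, add_im, one_im, zero_add]
  nlinarith

lemma F_zero {q : ℂ} (hq0 : q ≠ 0) (hq1 : 1 + q ≠ 0) : F q 0 = 0 := by
  unfold F
  field_simp
  ring

lemma F_tip {q : ℂ} : F q q = q / (2 * (1 + q)) := by
  unfold F
  ring

lemma F_hasDerivAt {q z : ℂ} (hz : 1 + z ≠ 0) :
    HasDerivAt (F q) (((1 + q) / q) * (1 / (1 + z) - 1 / (1 + q)) / (1 + z) ^ 2) z := by
  have h1 : HasDerivAt (fun z : ℂ => 1 + z) 1 z := by
    simpa using (hasDerivAt_id z).const_add 1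
  have h2 : HasDerivAt (fun z : ℂ => 1 / (1 + z)) (-1 / (1 + z) ^ 2) z := by
    simpa [one_div] using h1.fun_inv hz
  have h3 := (((h2.sub_const (1 / (1 + q))).pow 2).const_mul ((1 + q) / (2 * q))).const_sub
    (q / (2 * (1 + q)))
  have h4 : HasDerivAt (F q) _ z := h3
  refine h4.congr_deriv ?_
  push_cast
  by_cases hq : q = 0
  · subst hq; simp
  · field_simp

lemma F_deriv_zero {q : ℂ} (hq0 : q ≠ 0) (hq1 : 1 + q ≠ 0) : deriv (F q) 0 = 1 := by
  rw [(F_hasDerivAt (by simp)).deriv]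
  field_simp
  ring

lemma F_injOn {q : ℂ} (hq : ‖q‖ = 1) (hq0 : q ≠ 0) (hq1 : 1 + q ≠ 0) : InjOn (F q) disc := by
  intro z hz w hw h
  have hz1 := one_add_ne hz
  have hw1 := one_add_ne hw
  have hzr := (re_gt_iff hz1).mp hz
  have hwr := (re_gt_iff hw1).mp hw
  have hqr := re_half hq hq1
  unfold F at h
  have hc : (1 + q) / (2 * q) ≠ 0 := div_ne_zero hq1 (mul_ne_zero two_ne_zero hq0)
  have h2 : (1 / (1 + z) - 1 / (1 + q)) ^ 2 = (1 / (1 + w) - 1 / (1 + q)) ^ 2 := by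
    apply mul_left_cancel₀ hc
    linear_combination -h
  rcases sq_eq_sq_iff_eq_or_eq_neg.mp h2 with h3 | h3
  · have h4 : 1 / (1 + z) = 1 / (1 + w) := by linear_combination h3
    rw [one_div, one_div, inv_inj] at h4
    linear_combination h4
  · exfalso
    have h4 := congrArg Complex.re h3
    simp only [sub_re, neg_re] at h4
    linarith

/-- The complement of the image is a ray. -/
lemma F_compl {q : ℂ} (hq : ‖q‖ = 1) (hq0 : q ≠ 0) (hq1 : 1 + q ≠ 0) :
    (F q '' disc)ᶜ = (fun t : ℝ => q / (2 * (1 + q)) + t * ((1 + q) / (2 * q))) '' Ici 0 := by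
  have hc : (1 + q) / (2 * q) ≠ 0 := div_ne_zero hq1 (mul_ne_zero two_ne_zero hq0)
  have hqr := re_half hq hq1
  ext ω
  constructor
  · intro hω
    -- let `s² = (ω₀ - ω)/e`; if it is in the slit plane then `ω` is in the image
    by_contra hcon
    apply hω
    have hslit : (q / (2 * (1 + q)) - ω) / ((1 + q) / (2 * q)) ∈ Complex.slitPlane := by
      by_contra hns
      rw [Complex.mem_slitPlane_iff_not_le_zero, not_not] at hns
      apply hcon
      have h1 := Complex.le_def.mp hns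
      simp only [zero_re, zero_im] at h1
      refine ⟨-((q / (2 * (1 + q)) - ω) / ((1 + q) / (2 * q))).re, ?_, ?_⟩
      · simp only [mem_Ici]
        linarith [h1.1]
      · have h2 : (q / (2 * (1 + q)) - ω) / ((1 + q) / (2 * q))
            = (((q / (2 * (1 + q)) - ω) / ((1 + q) / (2 * q))).re : ℂ) := by
          apply Complex.ext
          · simp
          · rw [h1.2]; simp
        simp only
        push_cast
        rw [← h2]
        field_simp
        ring
    set v := (q / (2 * (1 + q)) - ω) / ((1 + q) / (2 * q)) with hv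
    set s := v ^ (1 / 2 : ℂ) with hs
    have hv0 : v ≠ 0 := Complex.slitPlane_ne_zero hslit
    have hs2 : s ^ 2 = v := by
      rw [hs, ← Complex.cpow_nat_mul]
      simp
    have hsre : 0 < s.re := by
      rw [hs, Complex.cpow_def_of_ne_zero hv0, Complex.exp_re]
      apply mul_pos (Real.exp_pos _)
      apply Real.cos_pos_of_mem_Ioo
      have h1 : (Complex.log v * (1 / 2 : ℂ)).im = v.arg / 2 := by
        have : (Complex.log v * (1 / 2 : ℂ)) = ((1 / 2 : ℝ) : ℂ) * Complex.log v := by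
          push_cast; ring
        rw [this, Complex.im_ofReal_mul, Complex.log_im]
        ring
      rw [h1]
      have h2 := Complex.neg_pi_lt_arg v
      have h3 := Complex.arg_le_pi v
      have h4 := Complex.slitPlane_arg_ne_pi hslit
      have h5 : v.arg < Real.pi := lt_of_le_of_ne h3 h4
      constructor <;> linarith
    have hW : 1 / 2 < (s + 1 / (1 + q)).re := by
      rw [add_re, hqr]; linarith
    have hW0 : s + 1 / (1 + q) ≠ 0 := by
      intro h
      rw [h] at hW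
      norm_num at hW
    refine ⟨1 / (s + 1 / (1 + q)) - 1, ?_, ?_⟩
    · have h1 : 1 + (1 / (s + 1 / (1 + q)) - 1) ≠ 0 := by
        have : 1 + (1 / (s + 1 / (1 + q)) - 1) = 1 / (s + 1 / (1 + q)) := by ring
        rw [this]
        exact one_div_ne_zero hW0
      rw [re_gt_iff h1]
      have : 1 / (1 + (1 / (s + 1 / (1 + q)) - 1)) = s + 1 / (1 + q) := by
        have : 1 + (1 / (s + 1 / (1 + q)) - 1) = 1 / (s + 1 / (1 + q)) := by ring
        rw [this, one_div_one_div]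
      rw [this]
      exact hW
    · unfold F
      have : 1 / (1 + (1 / (s + 1 / (1 + q)) - 1)) = s + 1 / (1 + q) := by
        have : 1 + (1 / (s + 1 / (1 + q)) - 1) = 1 / (s + 1 / (1 + q)) := by ring
        rw [this, one_div_one_div]
      rw [this, add_sub_cancel_right, hs2, hv]
      field_simp
      ring
  · rintro ⟨t, ht, rfl⟩ ⟨z, hz, hzω⟩
    have hz1 := one_add_ne hz
    have hzr := (re_gt_iff hz1).mp hz
    unfold F at hzω
    have h2 : (1 / (1 + z) - 1 / (1 + q)) ^ 2 = -(t : ℂ) := by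
      apply mul_left_cancel₀ hc
      simp only at hzω
      linear_combination -hzω
    have hre : 0 < (1 / (1 + z) - 1 / (1 + q)).re := by
      rw [sub_re, hqr]; linarith
    set s := 1 / (1 + z) - 1 / (1 + q) with hs
    have h3 := congrArg Complex.re h2
    have h4 := congrArg Complex.im h2
    rw [sq, Complex.mul_re] at h3
    rw [sq, Complex.mul_im] at h4
    simp only [neg_re, ofReal_re, neg_im, ofReal_im, neg_zero] at h3 h4
    have h5 : s.im = 0 := by
      have : 2 * s.re * s.im = 0 := by linarith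
      rcases mul_eq_zero.mp this with h | h
      · linarith
      · exact h
    rw [h5] at h3
    simp only [mem_Ici] at ht
    nlinarith

lemma F_slit {q : ℂ} (hq : ‖q‖ = 1) (hq0 : q ≠ 0) (hq1 : 1 + q ≠ 0) :
    IsSlit (q / (2 * (1 + q))) (F q '' disc)ᶜ := by
  have hc : (1 + q) / (2 * q) ≠ 0 := div_ne_zero hq1 (mul_ne_zero two_ne_zero hq0)
  set ω₀ := q / (2 * (1 + q)) with hω₀
  set e := (1 + q) / (2 * q) with he
  let γ : ℝ → ℂ := fun t => ω₀ + t * e
  have hderiv : ∀ t, HasDerivAt γ e t := by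
    intro t
    have h1 : HasDerivAt (fun t : ℝ => (t : ℂ)) 1 t := Complex.ofRealCLM.hasDerivAt
    have h2 := (h1.mul_const e).const_add ω₀
    rw [one_mul] at h2
    exact h2
  have hanal : ∀ t, AnalyticAt ℝ γ t := by
    intro t
    exact analyticAt_const.add ((Complex.ofRealCLM.analyticAt t).mul analyticAt_const)
  refine ⟨γ, ∅, ?_, ?_, ?_, ?_, ?_, ?_, ?_, ?_, ?_⟩
  · exact fun t _ => (hderiv t).continuousAt.continuousWithinAt
  · intro s _ t _ h
    simp only [γ] at h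
    have h1 : (s : ℂ) * e = t * e := by linear_combination h
    exact_mod_cast mul_right_cancel₀ hc h1
  · simp [γ]
  · rw [F_compl hq hq0 hq1]
  · have h1 : Tendsto (fun t : ℝ => ‖γ t‖) atTop atTop := by
      have h2 : ∀ t : ℝ, 0 ≤ t → t * ‖e‖ - ‖ω₀‖ ≤ ‖γ t‖ := by
        intro t ht
        have h3 : ‖(t : ℂ) * e‖ = t * ‖e‖ := by
          rw [norm_mul, Complex.norm_real, Real.norm_eq_abs, abs_of_nonneg ht]
        have h4 : ‖(t : ℂ) * e‖ ≤ ‖γ t‖ + ‖ω₀‖ := by
          have : (t : ℂ) * e = γ t - ω₀ := by simp [γ]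
          rw [this]
          exact norm_sub_le _ _
        linarith
      apply tendsto_atTop_mono' atTop (f₁ := fun t : ℝ => t * ‖e‖ - ‖ω₀‖)
      · filter_upwards [eventually_ge_atTop 0] with t ht using h2 t ht
      · apply tendsto_atTop_add_const_right
        exact tendsto_id.atTop_mul_const (norm_pos_iff.mpr hc)
    exact tendsto_norm_atTop_iff_cobounded.mp h1
  · intro t _ _
    exact ⟨hanal t, by rw [(hderiv t).deriv]; exact hc⟩
  · intro t _
    exact ⟨γ, hanal t, by rw [(hderiv t).deriv]; exact hc, EventuallyEq.rfl⟩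
  · intro t _
    exact ⟨γ, hanal t, by rw [(hderiv t).deriv]; exact hc, EventuallyEq.rfl⟩
  · have hden : (((0 : ℝ) : ℂ) * ω₀ + e) ≠ 0 := by simpa using hc
    have hg : HasDerivAt (fun s : ℝ => (s : ℂ) / ((s : ℂ) * ω₀ + e)) (1 / e) 0 := by
      have h1 : HasDerivAt (fun t : ℝ => (t : ℂ)) 1 0 := Complex.ofRealCLM.hasDerivAt
      have h2 := h1.div ((h1.mul_const ω₀).add_const e) hden
      refine h2.congr_deriv ?_
      rw [ofReal_zero, zero_mul, zero_mul, zero_add, one_mul, sub_zero]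
      field_simp
    refine ⟨fun s : ℝ => (s : ℂ) / ((s : ℂ) * ω₀ + e), ?_, ?_, ?_, ?_⟩
    · exact (Complex.ofRealCLM.analyticAt 0).div
        (((Complex.ofRealCLM.analyticAt 0).mul analyticAt_const).add analyticAt_const) hden
    · rw [hg.deriv]
      exact one_div_ne_zero hc
    · simp
    · filter_upwards [self_mem_nhdsWithin] with s hs
      have hs0 : (s : ℂ) ≠ 0 := by
        have : s ≠ 0 := (ne_of_gt hs)
        exact_mod_cast this
      have : ω₀ + ((1 / s : ℝ) : ℂ) * e = ((s : ℂ) * ω₀ + e) / s := by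
        push_cast
        field_simp
      change (ω₀ + ((1 / s : ℝ) : ℂ) * e)⁻¹ = (s : ℂ) / ((s : ℂ) * ω₀ + e)
      rw [this, inv_div]

lemma F_sector {q : ℂ} (hq : ‖q‖ = 1) (hq0 : q ≠ 0) (hq1 : 1 + q ≠ 0) {α : ℝ} (hα : 0 < α) :
    InSector α (q / (2 * (1 + q))) (F q '' disc)ᶜ := by
  refine ⟨((1 + q) / (2 * q)).arg, ?_⟩
  intro ω hω _
  rw [F_compl hq hq0 hq1] at hω
  obtain ⟨t, ht, rfl⟩ := hω
  refine ⟨((1 + q) / (2 * q)).arg, ⟨le_rfl, by nlinarith [Real.pi_pos]⟩, ?_⟩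
  simp only [add_sub_cancel_left]
  rw [norm_mul, Complex.norm_real, Real.norm_eq_abs, abs_of_nonneg ht]
  push_cast
  rw [mul_assoc, Complex.norm_mul_exp_arg_mul_I]

lemma F_infty {q : ℂ} (hq0 : q ≠ 0) (hq1 : 1 + q ≠ 0) :
    Tendsto (F q) (𝓝[disc] (-1)) (Bornology.cobounded ℂ) := by
  have hc : (1 + q) / (2 * q) ≠ 0 := div_ne_zero hq1 (mul_ne_zero two_ne_zero hq0)
  have h1 : Tendsto (fun z : ℂ => 1 + z) (𝓝[disc] (-1)) (𝓝[≠] 0) := by
    apply tendsto_nhdsWithin_of_tendsto_nhds_of_eventually_within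
    · have : Tendsto (fun z : ℂ => 1 + z) (𝓝 (-1)) (𝓝 (1 + (-1))) :=
        (continuous_const.add continuous_id).tendsto _
      rw [add_neg_cancel] at this
      exact this.mono_left nhdsWithin_le_nhds
    · filter_upwards [self_mem_nhdsWithin] with z hz using one_add_ne hz
  have h2 : Tendsto (fun z : ℂ => 1 / (1 + z)) (𝓝[disc] (-1)) (Bornology.cobounded ℂ) := by
    simp only [one_div]
    exact tendsto_inv₀_nhdsNE_zero.comp h1
  have h3 : Tendsto (fun w : ℂ => ‖q / (2 * (1 + q)) - ((1 + q) / (2 * q)) * (w - 1 / (1 + q)) ^ 2‖)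
      (Bornology.cobounded ℂ) atTop := by
    have h4 : Tendsto (fun w : ℂ => ‖w‖) (Bornology.cobounded ℂ) atTop := tendsto_norm_cobounded_atTop
    have h5 : ∀ w : ℂ, ‖(1 + q) / (2 * q)‖ * (‖w‖ - ‖1 / (1 + q)‖) ^ 2 - ‖q / (2 * (1 + q))‖
        ≤ ‖q / (2 * (1 + q)) - ((1 + q) / (2 * q)) * (w - 1 / (1 + q)) ^ 2‖ := by
      intro w
      have h6 : ‖((1 + q) / (2 * q)) * (w - 1 / (1 + q)) ^ 2‖
          ≤ ‖q / (2 * (1 + q)) - ((1 + q) / (2 * q)) * (w - 1 / (1 + q)) ^ 2‖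
            + ‖q / (2 * (1 + q))‖ := by
        have := norm_sub_le (q / (2 * (1 + q)))
          (q / (2 * (1 + q)) - ((1 + q) / (2 * q)) * (w - 1 / (1 + q)) ^ 2)
        rw [sub_sub_cancel] at this
        linarith
      rw [norm_mul, norm_pow] at h6
      have h7 : (‖w‖ - ‖1 / (1 + q)‖) ^ 2 ≤ ‖w - 1 / (1 + q)‖ ^ 2 := by
        rw [← sq_abs]
        apply pow_le_pow_left₀ (abs_nonneg _)
        exact abs_norm_sub_norm_le _ _
      have h8 := mul_le_mul_of_nonneg_left h7 (norm_nonneg ((1 + q) / (2 * q)))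
      linarith
    apply tendsto_atTop_mono h5
    apply tendsto_atTop_add_const_right
    apply Tendsto.const_mul_atTop (norm_pos_iff.mpr hc)
    have h9 : Tendsto (fun w : ℂ => ‖w‖ - ‖1 / (1 + q)‖) (Bornology.cobounded ℂ) atTop :=
      tendsto_atTop_add_const_right _ _ h4
    exact (tendsto_pow_atTop two_ne_zero).comp h9
  have h4 := h3.comp h2
  rw [← tendsto_norm_atTop_iff_cobounded]
  exact h4

lemma F_tendsto_tip {q : ℂ} (hq1 : 1 + q ≠ 0) :
    Tendsto (F q) (𝓝[disc] q) (𝓝 (q / (2 * (1 + q)))) := by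
  have h1 : ContinuousAt (F q) q := (F_hasDerivAt hq1).continuousAt
  have h2 : Tendsto (F q) (𝓝 q) (𝓝 (F q q)) := h1
  rw [F_tip] at h2
  exact h2.mono_left nhdsWithin_le_nhds

/-- Every angle in `(-π, π)` occurs, already for a straight slit. -/
lemma abs_mem_tipAngles {α : ℝ} (hα : 0 < α) {φ : ℝ} (hφ : φ ∈ Ioo (-Real.pi) Real.pi) :
    |φ| ∈ tipAngles α := by
  set q := Complex.exp (φ * I) with hqdef
  have hq : ‖q‖ = 1 := Complex.norm_exp_ofReal_mul_I φ
  have hq0 : q ≠ 0 := Complex.exp_ne_zero _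
  have hq1 : 1 + q ≠ 0 := by
    intro h
    have h1 : q = -1 := by linear_combination h
    have h2 := congrArg Complex.arg h1
    rw [hqdef, Complex.arg_exp_mul_I, Complex.arg_neg_one] at h2
    rw [toIocMod_eq_self Real.two_pi_pos |>.mpr] at h2
    · linarith [hφ.2]
    · constructor
      · exact hφ.1
      · linarith [hφ.2]
  refine ⟨F q, q / (2 * (1 + q)), φ, ⟨⟨?_, F_injOn hq hq0 hq1, F_zero hq0 hq1,
    F_deriv_zero hq0 hq1⟩, F_slit hq hq0 hq1, F_sector hq hq0 hq1 hα⟩, F_infty hq0 hq1, hφ,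
    F_tendsto_tip hq1, rfl⟩
  intro z hz
  exact (F_hasDerivAt (one_add_ne hz)).differentiableAt.differentiableWithinAt

/-- **Answer.** `Φ(α) = π` for every `α ∈ (0, 2]`. -/
theorem result : ∀ α : ℝ, 0 < α → α ≤ 2 → IsLUB (tipAngles α) Real.pi := by
  intro α hα _
  constructor
  · rintro x ⟨f, ω₀, φ, _, _, hφ, _, rfl⟩
    exact (abs_lt.mpr hφ).le
  · intro b hb
    by_contra hcon
    push Not at hcon
    have hpi := Real.pi_pos
    have h0 : (0 : ℝ) ≤ b := by
      have := hb (abs_mem_tipAngles hα (φ := 0) ⟨by linarith, hpi⟩)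
      simpa using this
    have h1 := hb (abs_mem_tipAngles hα (φ := (b + Real.pi) / 2) ⟨by linarith, by linarith⟩)
    rw [abs_of_nonneg (by linarith)] at h1
    linarith

end Pool.Agent.Results.MP_2e7b1e_an.TipPreimage
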